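import Pool.Agent.C4f.Alg

/-!
# Graphs defined by a polynomial of bounded degree over an arbitrary finite field
-/

set_option autoImplicit false

namespace Pool.Agent.C4h

open Finset MvPolynomial

/-! ## Part 1: large degree over the prime field -/

-- BEGIN half
/-- Edges only where `a u + a v = c`; the vertices of `U` have `a u + a u ≠ c`. With any linear order on `Q` (`linearOrderOfSTO WellOrderingRel`)
the sets `{u ∈ U | a u < c - a u}` and `{u ∈ U | c - a u < a u}` are independent and cover `U`. -/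
theorem half {V Q : Type} [AddCommGroup Q] (G : SimpleGraph V) (U : Finset V) (a : V → Q) (c : Q)
    (h1 : ∀ u ∈ U, a u + a u ≠ c) (h2 : ∀ u ∈ U, ∀ v ∈ U, G.Adj u v → a u + a v = c) :
    ∃ I : Finset V, G.IsIndepSet (I : Set V) ∧ U.card ≤ 2 * I.card := by
  classical
  obtain ⟨I1, hI1⟩ : ∃ I1 : Finset V, I1 = U.filter fun u => WellOrderingRel (a u) (c - a u) := ⟨_, rfl⟩
  obtain ⟨I2, hI2⟩ : ∃ I2 : Finset V, I2 = U.filter fun u => WellOrderingRel (c - a u) (a u) := ⟨_, rfl⟩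
  have i1 : G.IsIndepSet (I1 : Set V) := by
    intro u hu v hv _ huv
    rw [hI1, Finset.mem_coe, Finset.mem_filter] at hu hv
    have h3 := h2 u hu.1 v hv.1 huv
    have h4 : c - a u = a v := by rw [← h3]; abel
    have h5 : c - a v = a u := by rw [← h3]; abel
    rw [h4] at hu
    rw [h5] at hv
    exact asymm_of WellOrderingRel hu.2 hv.2
  have i2 : G.IsIndepSet (I2 : Set V) := by
    intro u hu v hv _ huv
    rw [hI2, Finset.mem_coe, Finset.mem_filter] at hu hv
    have h3 := h2 u hu.1 v hv.1 huv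
    have h4 : c - a u = a v := by rw [← h3]; abel
    have h5 : c - a v = a u := by rw [← h3]; abel
    rw [h4] at hu
    rw [h5] at hv
    exact asymm_of WellOrderingRel hu.2 hv.2
  have hU : U ⊆ I1 ∪ I2 := by
    intro u hu
    rw [Finset.mem_union, hI1, hI2, Finset.mem_filter, Finset.mem_filter]
    rcases trichotomous_of WellOrderingRel (a u) (c - a u) with h | h | h
    · exact Or.inl ⟨hu, h⟩
    · exact absurd (eq_sub_iff_add_eq.1 h) (h1 u hu)
    · exact Or.inr ⟨hu, h⟩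
  have h3 := (Finset.card_le_card hU).trans (Finset.card_union_le _ _)
  rcases le_total I1.card I2.card with h | h
  · exact ⟨I2, i2, by omega⟩
  · exact ⟨I1, i1, by omega⟩
-- END half

-- BEGIN exl
private theorem exl_card (K : Type) [Field K] [Fintype K] (n : ℕ) :
    Finite (Polynomial.degreeLT K n) ∧ Nat.card (Polynomial.degreeLT K n) = Fintype.card K ^ n := by
  have e := (Polynomial.degreeLTEquiv K n).toEquiv
  refine ⟨Finite.of_equiv _ e.symm, ?_⟩
  rw [Nat.card_congr e, Nat.card_eq_fintype_card, Fintype.card_fun, Fintype.card_fin]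

/-- `θ` a generator of `F` over `K` (`Field.powerBasisOfFiniteOfSeparable K F`, `dim = finrank`), `L` = image of `Polynomial.degreeLT K t` under `Polynomial.aeval θ`
(injective there because `t ≤ finrank = degree of the minimal polynomial`), `L'` = image of `Polynomial.degreeLT K (k * t + 1)`: a product of at most `k`
polynomials of degree `< t` has degree `≤ k (t - 1)`. (For `t = 0`, `L` is zero, `L'` = constants, contains the empty product `1` and `0`.) -/
theorem exl (K F : Type) [Field K] [Fintype K] [Field F] [Fintype F] [Algebra K F] (k t : ℕ)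
    (ht : t ≤ Module.finrank K F) :
    ∃ L L' : AddSubgroup F, Nat.card L = Fintype.card K ^ t ∧ Nat.card L' ≤ Fintype.card K ^ (k * t + 1) ∧
      ∀ s : Multiset F, Multiset.card s ≤ k → (∀ a ∈ s, a ∈ L) → s.prod ∈ L' := by
  classical
  have : FiniteDimensional K F := Module.Finite.of_finite
  let pb := Field.powerBasisOfFiniteOfSeparable K F
  have hdim : pb.dim = Module.finrank K F := pb.finrank.symm
  let f : Polynomial K →ₗ[K] F := (Polynomial.aeval pb.gen).toLinearMap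
  have hf : ∀ p, f p = Polynomial.aeval pb.gen p := fun p => rfl
  let g := f.domRestrict (Polynomial.degreeLT K t)
  let g' := f.domRestrict (Polynomial.degreeLT K (k * t + 1))
  have hinj : Function.Injective g := by
    rw [← LinearMap.ker_eq_bot, LinearMap.ker_eq_bot']
    intro p hp
    by_contra hne
    have hne' : (p : Polynomial K) ≠ 0 := fun h => hne (Subtype.ext h)
    have h1 : pb.dim ≤ (p : Polynomial K).natDegree := pb.dim_le_natDegree_of_root hne' hp
    have h2 : (p : Polynomial K).degree < (t : ℕ) := Polynomial.mem_degreeLT.1 p.2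
    have h3 : (p : Polynomial K).natDegree < t := (Polynomial.natDegree_lt_iff_degree_lt hne').2 h2
    omega
  refine ⟨(LinearMap.range g).toAddSubgroup, (LinearMap.range g').toAddSubgroup, ?_, ?_, ?_⟩
  · rw [← (exl_card K t).2]
    exact (Nat.card_congr (LinearEquiv.ofInjective g hinj).toEquiv).symm
  · rw [← (exl_card K (k * t + 1)).2]
    have := (exl_card K (k * t + 1)).1
    exact Nat.card_le_card_of_surjective g'.rangeRestrict g'.surjective_rangeRestrict
  · intro s hs ha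
    have key : ∀ s : Multiset F, (∀ a ∈ s, a ∈ (LinearMap.range g).toAddSubgroup) →
        ∃ p : Polynomial K, f p = s.prod ∧ p.natDegree ≤ Multiset.card s * t := by
      intro s
      induction s using Multiset.induction_on with
      | empty =>
        intro _
        exact ⟨1, by rw [hf, map_one, Multiset.prod_zero], by simp⟩
      | cons a s ih =>
        intro h
        obtain ⟨p, hp, hd⟩ := ih fun b hb => h b (Multiset.mem_cons_of_mem hb)
        obtain ⟨q, hq⟩ := h a (Multiset.mem_cons_self a s)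
        have hq' : f (q : Polynomial K) = a := hq
        have h2 : (q : Polynomial K).degree < (t : ℕ) := Polynomial.mem_degreeLT.1 q.2
        have h3 : (q : Polynomial K).natDegree ≤ t :=
          Polynomial.natDegree_le_iff_degree_le.2 h2.le
        refine ⟨q * p, ?_, ?_⟩
        · rw [hf, map_mul, ← hf, ← hf, hq', hp, Multiset.prod_cons]
        · refine Polynomial.natDegree_mul_le.trans ?_
          rw [Multiset.card_cons]
          nlinarith
    obtain ⟨p, hp, hd⟩ := key s ha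
    have h4 : p.natDegree ≤ k * t := hd.trans (Nat.mul_le_mul_right t hs)
    refine ⟨⟨p, Polynomial.mem_degreeLT.2 ?_⟩, hp⟩
    refine (Polynomial.natDegree_le_iff_degree_le.1 h4).trans_lt ?_
    exact_mod_cast Nat.lt_succ_self (k * t)
-- END exl

/-- the sums of the `c m * γ ^ |m| * l m`, `m ∈ S`, `l m ∈ L'` -/
def W {F ι : Type} [Field F] (L' : AddSubgroup F) (S : Finset (ι →₀ ℕ)) (c : (ι →₀ ℕ) → F) (γ : F) : AddSubgroup F where
  carrier := {x | ∃ l : (ι →₀ ℕ) → F, (∀ m, l m ∈ L') ∧ ∑ m ∈ S, c m * γ ^ m.degree * l m = x}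
  zero_mem' := ⟨fun _ => 0, fun _ => L'.zero_mem, by simp⟩
  add_mem' := by
    rintro _ _ ⟨l, hl, rfl⟩ ⟨l', hl', rfl⟩
    exact ⟨fun m => l m + l' m, fun m => L'.add_mem (hl m) (hl' m), by simp [mul_add, Finset.sum_add_distrib]⟩
  neg_mem' := by
    rintro _ ⟨l, hl, rfl⟩
    exact ⟨fun m => - l m, fun m => L'.neg_mem (hl m), by simp⟩

-- BEGIN gam
/-- For a function `l` from `S` to `L'` the polynomial `∑ m ∈ S, C (c m * l m) * T ^ |m| - C x` has constant coefficient `- x ≠ 0` (as `1 ≤ |m|`), degree `≤ k`: at most `k`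
roots. Union over the `|L'| ^ |S|` functions `l : S → L'`. -/
theorem gam {F ι : Type} [Field F] [Fintype F] (L' : AddSubgroup F) (S : Finset (ι →₀ ℕ)) (c : (ι →₀ ℕ) → F) (k : ℕ)
    (hS : ∀ m ∈ S, 1 ≤ m.degree ∧ m.degree ≤ k) (x : F) (hx : x ≠ 0) :
    {γ : F | x ∈ W L' S c γ}.ncard ≤ k * Nat.card L' ^ S.card := by
  classical
  let P : (S → L') → Polynomial F := fun l =>
    ∑ m : S, Polynomial.C (c m * (l m : F)) * Polynomial.X ^ (m : ι →₀ ℕ).degree - Polynomial.C x
  have hc0 : ∀ l, (P l).coeff 0 = -x := by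
    intro l
    simp only [P, Polynomial.coeff_sub, Polynomial.finsetSum_coeff, Polynomial.coeff_C_zero]
    rw [Finset.sum_eq_zero, zero_sub]
    intro m _
    have h1 := (hS m m.2).1
    rw [Polynomial.coeff_C_mul, Polynomial.coeff_X_pow, if_neg (by omega), mul_zero]
  have hne : ∀ l, P l ≠ 0 := by
    intro l e
    have := hc0 l
    rw [e, Polynomial.coeff_zero] at this
    exact hx (by rw [← neg_eq_zero]; exact this.symm)
  have hdeg : ∀ l, (P l).natDegree ≤ k := by
    intro l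
    refine (Polynomial.natDegree_sub_le _ _).trans (max_le ?_ ?_)
    · refine Polynomial.natDegree_sum_le_of_forall_le _ _ fun m _ => ?_
      exact (Polynomial.natDegree_C_mul_X_pow_le _ _).trans (hS m m.2).2
    · rw [Polynomial.natDegree_C]
      exact Nat.zero_le k
  letI : Fintype L' := Fintype.ofFinite L'
  have hsub : {γ : F | x ∈ W L' S c γ} ⊆
      ((Finset.univ.biUnion fun l : S → L' => (P l).roots.toFinset : Finset F) : Set F) := by
    rintro γ ⟨l, hl, e⟩
    rw [Finset.mem_coe, Finset.mem_biUnion]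
    refine ⟨fun m => ⟨l m, hl m⟩, Finset.mem_univ _, ?_⟩
    rw [Multiset.mem_toFinset, Polynomial.mem_roots (hne _), Polynomial.IsRoot.def]
    simp only [P, Polynomial.eval_sub, Polynomial.eval_finsetSum, Polynomial.eval_mul, Polynomial.eval_C,
      Polynomial.eval_pow, Polynomial.eval_X]
    rw [sub_eq_zero, ← e, ← Finset.sum_coe_sort S]
    refine Finset.sum_congr rfl fun m _ => ?_
    ring
  refine (Set.ncard_le_ncard hsub (Finset.finite_toSet _)).trans ?_
  rw [Set.ncard_coe_finset]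
  refine (Finset.card_biUnion_le_card_mul _ _ k fun l _ => ?_).trans ?_
  · exact ((Multiset.toFinset_card_le _).trans (Polynomial.card_roots' _)).trans (hdeg l)
  · rw [Finset.card_univ, Fintype.card_fun, Fintype.card_coe, Nat.card_eq_fintype_card, mul_comm]
-- END gam

-- BEGIN evw
/-- `eval (γ s) g = ∑ m ∈ support, coeff m g * γ ^ |m| * ∏ i, s i ^ m i`, and the last product is a product of `|m| ≤ k` elements of `L`; `l m` = this product if `|m| ≤ k`, else `0`. -/
theorem evw {F ι : Type} [Field F] [Fintype ι] (L L' : AddSubgroup F) (k : ℕ)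
    (hL : ∀ s : Multiset F, Multiset.card s ≤ k → (∀ a ∈ s, a ∈ L) → s.prod ∈ L')
    (g : MvPolynomial ι F) (hg : g.totalDegree ≤ k) (γ : F) (s : ι → F) (hs : ∀ i, s i ∈ L) :
    eval (fun i => γ * s i) g - g.coeff 0 ∈ W L' (g.support.erase 0) (fun m => g.coeff m) γ := by
  have hdeg : ∀ m : ι →₀ ℕ, m.degree = ∑ i, m i := fun m => Finsupp.degree_eq_sum m
  have hmem : ∀ m : ι →₀ ℕ, m.degree ≤ k → ∏ i, s i ^ m i ∈ L' := by
    intro m hm
    have h1 := hL (∑ i, Multiset.replicate (m i) (s i)) (by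
      rw [Multiset.card_sum]
      simp only [Multiset.card_replicate]
      rw [← hdeg]
      exact hm) (by
      intro a ha
      rw [Multiset.mem_sum] at ha
      obtain ⟨i, _, hi⟩ := ha
      rw [Multiset.eq_of_mem_replicate hi]
      exact hs i)
    have h2 : (∑ i, Multiset.replicate (m i) (s i)).prod = ∏ i, s i ^ m i := by
      rw [Multiset.prod_sum]
      simp only [Multiset.prod_replicate]
    rw [h2] at h1
    exact h1
  refine ⟨fun m => if m.degree ≤ k then ∏ i, s i ^ m i else 0, ?_, ?_⟩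
  · intro m
    by_cases hm : m.degree ≤ k
    · simp only [hm, if_true]
      exact hmem m hm
    · simp only [hm, if_false]
      exact L'.zero_mem
  · have e1 : eval (fun i => γ * s i) g = ∑ m ∈ g.support, g.coeff m * γ ^ m.degree *
        (if m.degree ≤ k then ∏ i, s i ^ m i else 0) := by
      rw [MvPolynomial.eval_eq']
      refine Finset.sum_congr rfl fun m hm => ?_
      have h3 : m.degree ≤ k := by
        have := MvPolynomial.le_totalDegree hm
        refine le_trans (le_of_eq ?_) (this.trans hg)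
        rw [hdeg, Finsupp.sum_fintype]
        intro i
        rfl
      rw [if_pos h3, hdeg, mul_assoc]
      congr 1
      rw [← Finset.prod_pow_eq_pow_sum, ← Finset.prod_mul_distrib]
      refine Finset.prod_congr rfl fun i _ => ?_
      rw [mul_pow]
    rw [e1]
    by_cases h0 : (0 : ι →₀ ℕ) ∈ g.support
    · rw [← Finset.add_sum_erase _ _ h0]
      simp
    · rw [Finset.erase_eq_of_notMem h0]
      have : g.coeff 0 = 0 := by
        by_contra hcon
        exact h0 (MvPolynomial.mem_support_iff.mpr hcon)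
      rw [this, sub_zero]
-- END evw

-- BEGIN shf
/-- The translated polynomial: `g = bind₁ (fun i => C (a i) + X i) f`. (Total degree: write `f` as the sum of its monomials; or `MvPolynomial.induction_on`-free: `aeval` of a
monomial is `C c * ∏ i, (C (a i) + X i) ^ m i`.) The constant coefficient is `eval 0 g`. -/
theorem shf {F ι : Type} [Field F] [Fintype ι] (f : MvPolynomial ι F) (a : ι → F) :
    ∃ g : MvPolynomial ι F, g.totalDegree ≤ f.totalDegree ∧ (∀ w : ι → F, eval w g = eval (fun i => a i + w i) f) ∧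
      g.coeff 0 = eval a f := by
  have hev : ∀ w : ι → F, eval w (bind₁ (fun i => C (a i) + X i) f) = eval (fun i => a i + w i) f := by
    intro w
    have h1 : eval w (bind₁ (fun i => C (a i) + X i) f) =
        eval (fun i => eval w (C (a i) + X i)) f := eval₂Hom_bind₁ _ _ _ _
    rw [h1]
    congr 2
    funext i
    rw [map_add, eval_C, eval_X]
  refine ⟨bind₁ (fun i => C (a i) + X i) f, ?_, hev, ?_⟩
  · have h1 : bind₁ (fun i => C (a i) + X i) f =
        ∑ d ∈ f.support, C (f.coeff d) * ∏ i ∈ d.support, (C (a i) + X i) ^ d i :=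
      eval₂_eq C (fun i => C (a i) + X i) f
    rw [h1]
    refine totalDegree_finsetSum_le fun d hd => ?_
    refine le_trans ?_ (le_totalDegree hd)
    refine (totalDegree_mul _ _).trans ?_
    rw [totalDegree_C, zero_add]
    refine (totalDegree_finsetProd _ _).trans ?_
    refine Finset.sum_le_sum fun i _ => ?_
    refine (totalDegree_pow _ _).trans ?_
    have h2 : (C (a i) + X i : MvPolynomial ι F).totalDegree ≤ 1 := by
      refine (totalDegree_add _ _).trans ?_
      rw [totalDegree_C, totalDegree_X]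
      exact max_le zero_le_one le_rfl
    calc d i * (C (a i) + X i : MvPolynomial ι F).totalDegree ≤ d i * 1 := Nat.mul_le_mul_left _ h2
      _ = d i := mul_one _
  · have h1 := hev 0
    rw [eval_zero, constantCoeff_eq] at h1
    rw [h1]
    congr 2
    funext i
    rw [Pi.zero_apply, add_zero]
-- END shf

-- BEGIN spt
/-- Every exponent is at most `k`: the support injects into `ι → Fin (k + 1)`. -/
theorem spt {F ι : Type} [Field F] [Fintype ι] (g : MvPolynomial ι F) (k : ℕ) (hg : g.totalDegree ≤ k) :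
    g.support.card ≤ (k + 1) ^ Fintype.card ι := by
  classical
  have h1 : ∀ m ∈ g.support, ∀ i, m i < k + 1 := by
    intro m hm i
    have h2 : m.degree ≤ g.totalDegree := le_totalDegree hm
    have h3 : m i ≤ m.degree := Finsupp.le_degree i m
    omega
  have h4 : Function.Injective
      (fun (m : g.support) (i : ι) => (⟨m.1 i, h1 m.1 m.2 i⟩ : Fin (k + 1))) := by
    intro m m' h
    apply Subtype.ext
    ext i
    have h5 := congrFun h i
    exact congrArg Fin.val h5
  have h6 := Fintype.card_le_of_injective _ h4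
  rwa [Fintype.card_coe, Fintype.card_fun, Fintype.card_fin] at h6
-- END spt

-- BEGIN cls
private theorem cls_evw {F ι : Type} [Field F] [Fintype ι] (L L' : AddSubgroup F) (k : ℕ)
    (hL : ∀ s : Multiset F, Multiset.card s ≤ k → (∀ a ∈ s, a ∈ L) → s.prod ∈ L')
    (g : MvPolynomial ι F) (hg : g.totalDegree ≤ k) :
    ∃ S : Finset (ι →₀ ℕ), (∀ (γ : F) (s : ι → F), (∀ i, s i ∈ L) →
        eval (fun i => γ * s i) g - g.coeff 0 ∈ W L' S (fun m => g.coeff m) γ) ∧
      ∀ m, m ∈ S ↔ m ≠ 0 ∧ m ∈ g.support :=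
  ⟨_, fun γ s hs => evw L L' k hL g hg γ s hs, fun _ => Finset.mem_erase⟩

/-- `shf` with `a = Sum.elim x0 x0`, then `Wf γ = W L' (g.support.erase 0) (fun m => g.coeff m) γ`: `evw` and `gam` (`spt` with `ι = Fin d ⊕ Fin d`; `1 ≤ Nat.card L'`). -/
theorem cls {F : Type} [Field F] [Fintype F] (d k : ℕ) (f : MvPolynomial (Fin d ⊕ Fin d) F) (hf : f.totalDegree ≤ k)
    (L L' : AddSubgroup F) (hL : ∀ s : Multiset F, Multiset.card s ≤ k → (∀ a ∈ s, a ∈ L) → s.prod ∈ L')
    (x0 : Fin d → F) :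
    ∃ Wf : F → AddSubgroup F,
      (∀ (γ : F) (s s' : Fin d → F), (∀ i, s i ∈ L) → (∀ i, s' i ∈ L) →
        eval (Sum.elim (fun i => x0 i + γ * s i) (fun i => x0 i + γ * s' i)) f - eval (Sum.elim x0 x0) f ∈ Wf γ) ∧
      ∀ c : F, c ≠ 0 → {γ : F | c ∈ Wf γ}.ncard ≤ k * Nat.card L' ^ ((k + 1) ^ (2 * d)) := by
  obtain ⟨g, hg1, hg2, hg3⟩ := shf f (Sum.elim x0 x0)
  obtain ⟨S, hS1, hS2⟩ := cls_evw L L' k hL g (hg1.trans hf)
  refine ⟨fun γ => W L' S (fun m => g.coeff m) γ, ?_, ?_⟩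
  · intro γ s s' hs hs'
    have h1 := hS1 γ (Sum.elim s s') (by
      rintro (i | i)
      · exact hs i
      · exact hs' i)
    rw [hg3, hg2] at h1
    have h2 : (fun i => Sum.elim x0 x0 i + γ * Sum.elim s s' i) =
        Sum.elim (fun i => x0 i + γ * s i) (fun i => x0 i + γ * s' i) := by
      funext i
      rcases i with i | i
      · rfl
      · rfl
    rw [h2] at h1
    exact h1
  · intro c hc
    refine (gam L' S (fun m => g.coeff m) k ?_ c hc).trans ?_
    · intro m hm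
      obtain ⟨h0, h1⟩ := (hS2 m).1 hm
      refine ⟨?_, ?_⟩
      · rw [Nat.one_le_iff_ne_zero]
        intro h2
        exact h0 ((Finsupp.degree_eq_zero_iff m).1 h2)
      · exact (le_totalDegree h1).trans (hg1.trans hf)
    · refine Nat.mul_le_mul_left _ (Nat.pow_le_pow_right Nat.card_pos ?_)
      refine (Finset.card_le_card (fun m hm => ((hS2 m).1 hm).2)).trans ?_
      refine (spt g k (hg1.trans hf)).trans (le_of_eq ?_)
      rw [Fintype.card_sum, Fintype.card_fin, two_mul]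
-- END cls

-- BEGIN dia
private theorem dia_ev {F : Type} [Field F] {d : ℕ} (f : MvPolynomial (Fin d ⊕ Fin d) F) (x : Fin d → F) :
    eval (Sum.elim x x) f = eval x (rename (Sum.elim id id : Fin d ⊕ Fin d → Fin d) f) := by
  rw [eval_rename]
  congr 2
  funext i
  rcases i with i | i
  · rfl
  · rfl

private theorem dia_sz {F : Type} [Field F] [Fintype F] {d : ℕ} (g : MvPolynomial (Fin d) F) (hg : g ≠ 0) :
    {x : Fin d → F | eval x g = 0}.ncard * Fintype.card F ≤ g.totalDegree * Fintype.card F ^ d := by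
  classical
  have h := MvPolynomial.schwartz_zippel_totalDegree hg (Finset.univ : Finset F)
  have hq : 0 < Fintype.card F := Fintype.card_pos
  have hset : {x : Fin d → F | eval x g = 0} =
      (((Fintype.piFinset fun _ : Fin d => (Finset.univ : Finset F)).filter fun x => eval x g = 0 : Finset (Fin d → F)) : Set (Fin d → F)) := by
    ext x
    simp
  rw [hset, Set.ncard_coe_finset]
  rw [Finset.card_univ] at h
  have hq' : (0 : ℚ≥0) < (Fintype.card F : ℚ≥0) := by exact_mod_cast hq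
  have hq'' : (0 : ℚ≥0) < (Fintype.card F : ℚ≥0) ^ d := pow_pos hq' d
  rw [div_le_div_iff₀ hq'' hq'] at h
  exact_mod_cast h

/-- The pairs `(x, z)` with `2 z = f(x, x)`. Characteristic not 2: `z` is determined by `x`. Characteristic 2: `f(x, x) = eval x (rename (Sum.elim id id) f) = 0`, Schwartz-Zippel
(`MvPolynomial.schwartz_zippel_totalDegree`, `totalDegree_rename_le`): at most `k q ^ (d - 1)` points `x` (none if `d = 0`), `q` values of `z`. -/
theorem dia {F : Type} [Field F] [Fintype F] (d k : ℕ) (f : MvPolynomial (Fin d ⊕ Fin d) F) (hf : f.totalDegree ≤ k)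
    (hD : (2 : F) = 0 → rename (Sum.elim id id : Fin d ⊕ Fin d → Fin d) f ≠ 0) :
    {w : (Fin d → F) × F | 2 * w.2 = eval (Sum.elim w.1 w.1) f}.ncard ≤ (k + 1) * Fintype.card F ^ d := by
  classical
  by_cases h2 : (2 : F) = 0
  · have hg := hD h2
    have hset : {w : (Fin d → F) × F | 2 * w.2 = eval (Sum.elim w.1 w.1) f} =
        {x : Fin d → F | eval x (rename (Sum.elim id id : Fin d ⊕ Fin d → Fin d) f) = 0} ×ˢ (Set.univ : Set F) := by
      ext w
      simp only [Set.mem_setOf_eq, Set.mem_prod, Set.mem_univ, and_true]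
      rw [dia_ev, h2, zero_mul]
      exact eq_comm
    rw [hset, Set.ncard_prod, Set.ncard_univ, Nat.card_eq_fintype_card]
    refine (dia_sz _ hg).trans ?_
    refine Nat.mul_le_mul_right _ ?_
    exact (totalDegree_rename_le _ _).trans (hf.trans (Nat.le_succ k))
  · have h1 : {w : (Fin d → F) × F | 2 * w.2 = eval (Sum.elim w.1 w.1) f}.ncard ≤
        (Set.univ : Set (Fin d → F)).ncard := by
      refine Set.ncard_le_ncard_of_injOn Prod.fst (fun _ _ => Set.mem_univ _) ?_ Set.finite_univ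
      intro u hu v hv huv
      simp only [Set.mem_setOf_eq] at hu hv
      refine Prod.ext huv (mul_left_cancel₀ h2 ?_)
      rw [hu, hv, huv]
    rw [Set.ncard_univ, Nat.card_eq_fintype_card, Fintype.card_fun, Fintype.card_fin] at h1
    exact h1.trans (Nat.le_mul_of_pos_left _ (Nat.succ_pos k))
-- END dia

-- BEGIN cna
/-- For fixed `γ ≠ 0` every `u` has exactly `|P| ^ d` points `x0` with `x u ∈ x0 + γ P ^ d`; sum over the `q - 1` values of `γ`. -/
theorem cna {F : Type} [Field F] [Fintype F] (d : ℕ) {V : Type} [Fintype V] (x : V → Fin d → F) (P : Set F) :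
    {w : (Fin d → F) × F × V | w.2.1 ≠ 0 ∧ ∃ s : Fin d → F, (∀ i, s i ∈ P) ∧ ∀ i, x w.2.2 i = w.1 i + w.2.1 * s i}.ncard =
      (Fintype.card F - 1) * Fintype.card V * P.ncard ^ d := by
  classical
  have hinj : Function.Injective (fun t : Fˣ × V × (Fin d → P) =>
      ((fun i => x t.2.1 i - (t.1 : F) * (t.2.2 i : F)), (t.1 : F), t.2.1)) := by
    rintro ⟨γ, u, s⟩ ⟨γ', u', s'⟩ h
    simp only [Prod.mk.injEq] at h
    obtain ⟨h1, h2, h3⟩ := h
    have h4 : γ = γ' := Units.ext h2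
    subst h4
    subst h3
    have h5 : s = s' := by
      funext i
      apply Subtype.ext
      have h6 := congrFun h1 i
      have h7 : (γ : F) * (s i : F) = (γ : F) * (s' i : F) := by
        linear_combination - h6
      exact mul_left_cancel₀ γ.ne_zero h7
    rw [h5]
  have hrange : {w : (Fin d → F) × F × V | w.2.1 ≠ 0 ∧ ∃ s : Fin d → F, (∀ i, s i ∈ P) ∧
      ∀ i, x w.2.2 i = w.1 i + w.2.1 * s i} = Set.range (fun t : Fˣ × V × (Fin d → P) =>
      ((fun i => x t.2.1 i - (t.1 : F) * (t.2.2 i : F)), (t.1 : F), t.2.1)) := by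
    ext ⟨x0, γ, u⟩
    constructor
    · rintro ⟨h0, s, hs, hx⟩
      refine ⟨(Units.mk0 γ h0, u, fun i => ⟨s i, hs i⟩), ?_⟩
      refine Prod.ext ?_ rfl
      funext i
      change x u i - γ * s i = x0 i
      have h1 : x u i = x0 i + γ * s i := hx i
      rw [h1]
      ring
    · rintro ⟨⟨γ', u', s⟩, h⟩
      simp only [Prod.mk.injEq] at h
      obtain ⟨h1, h2, h3⟩ := h
      subst h2
      subst h3
      refine ⟨γ'.ne_zero, fun i => (s i : F), fun i => (s i).2, fun i => ?_⟩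
      change x u' i = x0 i + (γ' : F) * (s i : F)
      rw [← h1]
      ring
  rw [hrange, Set.ncard_range_of_injective hinj, Nat.card_prod, Nat.card_prod, Nat.card_fun, Nat.card_units,
    Nat.card_eq_fintype_card, Nat.card_eq_fintype_card, Nat.card_eq_fintype_card (α := Fin d),
    Fintype.card_fin, mul_assoc]
  rfl
-- END cna

-- BEGIN cnb
/-- For given `(x0, γ, z)` the vertex `u` is determined by `s ∈ P ^ d` and `y u`: at most `|P| ^ d q ^ e` vertices. -/
theorem cnb {F : Type} [Field F] [Fintype F] (d e : ℕ) {V : Type} [Fintype V] (x : V → Fin d → F) (y : V → Fin e → F)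
    (z : V → F) (hinj : Function.Injective fun v => (x v, y v, z v)) (P : Set F) (B : Set ((Fin d → F) × F × F)) :
    {w : (Fin d → F) × F × V | (∃ s : Fin d → F, (∀ i, s i ∈ P) ∧ ∀ i, x w.2.2 i = w.1 i + w.2.1 * s i) ∧
      (w.1, w.2.1, z w.2.2) ∈ B}.ncard ≤ B.ncard * (P.ncard ^ d * Fintype.card F ^ e) := by
  classical
  let T : Set ((Fin d → F) × F × V) :=
    {w : (Fin d → F) × F × V | (∃ s : Fin d → F, (∀ i, s i ∈ P) ∧ ∀ i, x w.2.2 i = w.1 i + w.2.1 * s i) ∧
      (w.1, w.2.1, z w.2.2) ∈ B}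
  change T.ncard ≤ _
  have hT : ∀ w : T, ∃ s : Fin d → F, (∀ i, s i ∈ P) ∧ ∀ i, x w.1.2.2 i = w.1.1 i + w.1.2.1 * s i := fun w => w.2.1
  choose s hs hs' using hT
  let φ : T → B × (Fin d → P) × (Fin e → F) := fun w =>
    (⟨(w.1.1, w.1.2.1, z w.1.2.2), w.2.2⟩, fun i => ⟨s w i, hs w i⟩, y w.1.2.2)
  have hφ : Function.Injective φ := by
    intro w w' hw
    simp only [φ, Prod.mk.injEq, Subtype.mk.injEq] at hw
    obtain ⟨⟨h1, h2, h3⟩, h4, h5⟩ := hw
    have h6 : ∀ i, s w i = s w' i := fun i => congrArg Subtype.val (congrFun h4 i)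
    have h7 : x w.1.2.2 = x w'.1.2.2 := by
      funext i
      rw [hs' w i, hs' w' i, h1, h2, h6 i]
    have h8 : w.1.2.2 = w'.1.2.2 := hinj (by simp only [h7, h5, h3])
    exact Subtype.ext (Prod.ext h1 (Prod.ext h2 h8))
  have h := Nat.card_le_card_of_injective φ hφ
  rw [Nat.card_prod, Nat.card_prod, Nat.card_fun, Nat.card_fun, Nat.card_coe_set_eq, Nat.card_coe_set_eq,
    Nat.card_coe_set_eq, Nat.card_eq_fintype_card (α := Fin d), Nat.card_eq_fintype_card (α := Fin e),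
    Fintype.card_fin, Fintype.card_fin, Nat.card_eq_fintype_card (α := F)] at h
  exact h
-- END cnb

-- BEGIN cnt
/-- `cna` minus `cnb`: the number of triples `(x0, γ, u)`, `γ ≠ 0`, `u` in the class and not in `B`, is at least `(q - 1) n |P| ^ d / 2`; there are `q ^ d (q - 1)` pairs `(x0, γ)`, `γ ≠ 0`,
so one of them has at least the average. (`q ≥ 2` for a field.) -/
theorem cnt {F : Type} [Field F] [Fintype F] (d e : ℕ) {V : Type} [Fintype V] (x : V → Fin d → F) (y : V → Fin e → F)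
    (z : V → F) (hinj : Function.Injective fun v => (x v, y v, z v)) (P : Set F) (B : Set ((Fin d → F) × F × F))
    (h : 2 * B.ncard * Fintype.card F ^ e ≤ (Fintype.card F - 1) * Fintype.card V) :
    ∃ x0 : Fin d → F, ∃ γ : F, γ ≠ 0 ∧ ∃ U : Finset V,
      (∀ u ∈ U, (∃ s : Fin d → F, (∀ i, s i ∈ P) ∧ ∀ i, x u i = x0 i + γ * s i) ∧ (x0, γ, z u) ∉ B) ∧
      Fintype.card V * P.ncard ^ d ≤ 2 * Fintype.card F ^ d * U.card := by
  classical
  by_contra hcon
  push Not at hcon
  obtain ⟨UU, hUU⟩ : ∃ UU : (Fin d → F) × F → Finset V, ∀ p, UU p = Finset.univ.filter fun u =>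
      (∃ s : Fin d → F, (∀ i, s i ∈ P) ∧ ∀ i, x u i = p.1 i + p.2 * s i) ∧ (p.1, p.2, z u) ∉ B :=
    ⟨_, fun p => rfl⟩
  have hlt : ∀ p : (Fin d → F) × F, p.2 ≠ 0 →
      2 * Fintype.card F ^ d * (UU p).card < Fintype.card V * P.ncard ^ d := by
    intro p hp
    refine hcon p.1 p.2 hp (UU p) fun u hu => ?_
    rw [hUU] at hu
    exact (Finset.mem_filter.1 hu).2
  have hS : ((Finset.univ : Finset (Fin d → F)) ×ˢ ((Finset.univ : Finset F).erase 0)).card =
      Fintype.card F ^ d * (Fintype.card F - 1) := by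
    rw [Finset.card_product, Finset.card_univ, Fintype.card_fun, Fintype.card_fin,
      Finset.card_erase_of_mem (Finset.mem_univ _), Finset.card_univ]
  have hq : 1 < Fintype.card F := Fintype.one_lt_card
  have hSne : ((Finset.univ : Finset (Fin d → F)) ×ˢ ((Finset.univ : Finset F).erase 0)).Nonempty := by
    rw [← Finset.card_pos, hS]
    exact Nat.mul_pos (pow_pos (by omega) _) (by omega)
  have hsum : 2 * Fintype.card F ^ d *
      ∑ p ∈ (Finset.univ : Finset (Fin d → F)) ×ˢ ((Finset.univ : Finset F).erase 0), (UU p).card <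
      Fintype.card F ^ d * (Fintype.card F - 1) * (Fintype.card V * P.ncard ^ d) := by
    rw [← hS, Finset.mul_sum, ← smul_eq_mul (a := Finset.card _), ← Finset.sum_const]
    refine Finset.sum_lt_sum_of_nonempty hSne fun p hp => ?_
    exact hlt p (Finset.mem_erase.1 (Finset.mem_product.1 hp).2).1
  have hsub : {w : (Fin d → F) × F × V | w.2.1 ≠ 0 ∧ ∃ s : Fin d → F, (∀ i, s i ∈ P) ∧
      ∀ i, x w.2.2 i = w.1 i + w.2.1 * s i} \
      {w : (Fin d → F) × F × V | (∃ s : Fin d → F, (∀ i, s i ∈ P) ∧ ∀ i, x w.2.2 i = w.1 i + w.2.1 * s i) ∧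
        (w.1, w.2.1, z w.2.2) ∈ B} ⊆
      (((Finset.univ : Finset (Fin d → F)) ×ˢ ((Finset.univ : Finset F).erase 0)).biUnion
        fun p => (UU p).image fun u => (p.1, p.2, u) : Finset ((Fin d → F) × F × V)) := by
    rintro ⟨x0, γ, u⟩ ⟨⟨h0, hs⟩, h1⟩
    rw [Finset.mem_coe, Finset.mem_biUnion]
    refine ⟨(x0, γ), Finset.mem_product.2 ⟨Finset.mem_univ _, Finset.mem_erase.2 ⟨h0, Finset.mem_univ _⟩⟩, ?_⟩
    rw [Finset.mem_image]
    refine ⟨u, ?_, rfl⟩
    rw [hUU, Finset.mem_filter]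
    exact ⟨Finset.mem_univ _, hs, fun hB => h1 ⟨hs, hB⟩⟩
  have hA := cna d x P
  have hB := cnb d e x y z hinj P B
  have h3 := Set.ncard_le_ncard hsub (Finset.finite_toSet _)
  rw [Set.ncard_coe_finset] at h3
  have h4 : (((Finset.univ : Finset (Fin d → F)) ×ˢ ((Finset.univ : Finset F).erase 0)).biUnion
        fun p => (UU p).image fun u => (p.1, p.2, u) : Finset ((Fin d → F) × F × V)).card ≤
      ∑ p ∈ (Finset.univ : Finset (Fin d → F)) ×ˢ ((Finset.univ : Finset F).erase 0), (UU p).card :=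
    Finset.card_biUnion_le.trans (Finset.sum_le_sum fun p _ => Finset.card_image_le)
  have h5 := Set.ncard_le_ncard_sdiff_add_ncard
    {w : (Fin d → F) × F × V | w.2.1 ≠ 0 ∧ ∃ s : Fin d → F, (∀ i, s i ∈ P) ∧
      ∀ i, x w.2.2 i = w.1 i + w.2.1 * s i}
    {w : (Fin d → F) × F × V | (∃ s : Fin d → F, (∀ i, s i ∈ P) ∧ ∀ i, x w.2.2 i = w.1 i + w.2.1 * s i) ∧
        (w.1, w.2.1, z w.2.2) ∈ B} (Set.toFinite _)
  rw [hA] at h5
  have h6 : (Fintype.card F - 1) * Fintype.card V * P.ncard ^ d ≤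
      (∑ p ∈ (Finset.univ : Finset (Fin d → F)) ×ˢ ((Finset.univ : Finset F).erase 0), (UU p).card) +
        B.ncard * (P.ncard ^ d * Fintype.card F ^ e) :=
    h5.trans (Nat.add_le_add (h3.trans h4) hB)
  have h7 : 2 * (B.ncard * (P.ncard ^ d * Fintype.card F ^ e)) ≤
      (Fintype.card F - 1) * Fintype.card V * P.ncard ^ d := by
    calc 2 * (B.ncard * (P.ncard ^ d * Fintype.card F ^ e)) =
        (2 * B.ncard * Fintype.card F ^ e) * P.ncard ^ d := by ring
      _ ≤ (Fintype.card F - 1) * Fintype.card V * P.ncard ^ d := Nat.mul_le_mul_right _ h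
  have h8 : (Fintype.card F - 1) * Fintype.card V * P.ncard ^ d ≤
      2 * ∑ p ∈ (Finset.univ : Finset (Fin d → F)) ×ˢ ((Finset.univ : Finset F).erase 0), (UU p).card := by
    omega
  have h9 := Nat.mul_le_mul_left (Fintype.card F ^ d) h8
  have h10 : Fintype.card F ^ d * (Fintype.card F - 1) * (Fintype.card V * P.ncard ^ d) =
      Fintype.card F ^ d * ((Fintype.card F - 1) * Fintype.card V * P.ncard ^ d) := by ring
  have h11 : 2 * Fintype.card F ^ d *
      ∑ p ∈ (Finset.univ : Finset (Fin d → F)) ×ˢ ((Finset.univ : Finset F).erase 0), (UU p).card =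
      Fintype.card F ^ d * (2 *
        ∑ p ∈ (Finset.univ : Finset (Fin d → F)) ×ˢ ((Finset.univ : Finset F).erase 0), (UU p).card) := by ring
  rw [h10, h11] at hsum
  exact absurd h9 (not_le.2 hsum)
-- END cnt

-- BEGIN bad
theorem bad {F : Type} [Field F] [Fintype F] (d k M : ℕ) (D : (Fin d → F) → F) (Wf : (Fin d → F) → F → AddSubgroup F)
    (hD : {w : (Fin d → F) × F | 2 * w.2 = D w.1}.ncard ≤ (k + 1) * Fintype.card F ^ d)
    (hW : ∀ x0, ∀ c : F, c ≠ 0 → {γ : F | c ∈ Wf x0 γ}.ncard ≤ M) :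
    {w : (Fin d → F) × F × F | 2 * w.2.2 - D w.1 ∈ Wf w.1 w.2.1}.ncard ≤ (k + 1 + M) * Fintype.card F ^ (d + 1) := by
  classical
  have hcard : Fintype.card ((Fin d → F) × F) = Fintype.card F ^ (d + 1) := by
    rw [Fintype.card_prod, Fintype.card_fun, Fintype.card_fin, pow_succ]
  set T : Finset ((Fin d → F) × F × F) := univ.filter fun w => 2 * w.2.2 - D w.1 ∈ Wf w.1 w.2.1 with hT
  have hTs : {w : (Fin d → F) × F × F | 2 * w.2.2 - D w.1 ∈ Wf w.1 w.2.1}.ncard = T.card := by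
    rw [← Set.ncard_coe_finset]
    congr 1
    ext w
    simp [hT]
  rw [hTs]
  set E : Finset ((Fin d → F) × F) := univ.filter fun w => 2 * w.2 = D w.1 with hE
  have hEs : E.card ≤ (k + 1) * Fintype.card F ^ d := by
    refine le_trans (le_of_eq ?_) hD
    rw [← Set.ncard_coe_finset]
    congr 1
    ext w
    simp [hE]
  have h1 : T.card = ∑ v : (Fin d → F) × F, (T.filter fun w => (w.1, w.2.2) = v).card :=
    Finset.card_eq_sum_card_fiberwise fun w _ => mem_coe.2 (mem_univ _)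
  have h2 : ∀ v : (Fin d → F) × F, (T.filter fun w => (w.1, w.2.2) = v).card ≤
      (if v ∈ E then Fintype.card F else 0) + M := by
    intro v
    have h3 : (T.filter fun w => (w.1, w.2.2) = v).card ≤ (univ.filter fun γ : F => 2 * v.2 - D v.1 ∈ Wf v.1 γ).card := by
      refine Finset.card_le_card_of_injOn (fun w => w.2.1) ?_ ?_
      · intro w hw
        obtain ⟨hw1, hw2⟩ := Finset.mem_filter.1 (mem_coe.1 hw)
        have hw3 := (Finset.mem_filter.1 hw1).2
        subst hw2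
        exact mem_coe.2 (Finset.mem_filter.2 ⟨mem_univ _, hw3⟩)
      · intro w hw w' hw' h
        have hw2 := (Finset.mem_filter.1 (mem_coe.1 hw)).2
        have hw2' := (Finset.mem_filter.1 (mem_coe.1 hw')).2
        rw [← hw2'] at hw2
        have e1 := congrArg Prod.fst hw2
        have e2 := congrArg Prod.snd hw2
        exact Prod.ext e1 (Prod.ext h e2)
    refine h3.trans ?_
    by_cases hv : v ∈ E
    · rw [if_pos hv]
      refine le_trans (Finset.card_le_univ _) (Nat.le_add_right _ _)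
    · rw [if_neg hv, zero_add]
      have hne : 2 * v.2 - D v.1 ≠ 0 := by
        intro h
        exact hv (Finset.mem_filter.2 ⟨mem_univ _, sub_eq_zero.1 h⟩)
      refine le_trans (le_of_eq ?_) (hW v.1 _ hne)
      rw [← Set.ncard_coe_finset]
      congr 1
      ext γ
      simp
  calc T.card ≤ ∑ v : (Fin d → F) × F, ((if v ∈ E then Fintype.card F else 0) + M) := by
        rw [h1]
        exact Finset.sum_le_sum fun v _ => h2 v
    _ = E.card * Fintype.card F + Fintype.card F ^ (d + 1) * M := by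
        rw [Finset.sum_add_distrib, Finset.sum_ite_mem, Finset.univ_inter, Finset.sum_const, Finset.sum_const,
          Finset.card_univ, hcard, smul_eq_mul, smul_eq_mul]
    _ ≤ (k + 1) * Fintype.card F ^ d * Fintype.card F + Fintype.card F ^ (d + 1) * M :=
        Nat.add_le_add_right (Nat.mul_le_mul_right _ hEs) _
    _ = (k + 1 + M) * Fintype.card F ^ (d + 1) := by ring
-- END bad

-- BEGIN cor
/-- `exl`, `cls` for every `x0` (choose `Wf x0`), `dia`, `bad` with `M = k |L'| ^ ((k + 1) ^ (2 d))`, `cnt` with `P = L`, `B` = the bad triples; then `half` with `Q = F ⧸ Wf x0 γ`, `a u` = class of `z u`,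
`c` = class of `f(x0, x0)`. -/
theorem cor {K F : Type} [Field K] [Fintype K] [Field F] [Fintype F] [Algebra K F] (d e k t : ℕ)
    (ht : t ≤ Module.finrank K F) (f : MvPolynomial (Fin d ⊕ Fin d) F) (hf : f.totalDegree ≤ k)
    (hD : (2 : F) = 0 → rename (Sum.elim id id : Fin d ⊕ Fin d → Fin d) f ≠ 0)
    {V : Type} [Fintype V] (G : SimpleGraph V) (x : V → Fin d → F) (y : V → Fin e → F) (z : V → F)
    (hinj : Function.Injective fun v => (x v, y v, z v))
    (hG : ∀ u v, G.Adj u v → z u + z v = eval (Sum.elim (x u) (x v)) f)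
    (hB : 4 * (k + 1) * Fintype.card K ^ ((k * t + 1) * (k + 1) ^ (2 * d)) * Fintype.card F ^ (d + e + 1) ≤
      (Fintype.card F - 1) * Fintype.card V) :
    ∃ I : Finset V, G.IsIndepSet (I : Set V) ∧
      Fintype.card V * (Fintype.card K ^ t) ^ d ≤ 4 * Fintype.card F ^ d * I.card := by
  classical
  obtain ⟨L, L', hL, hL', hprod⟩ := exl K F k t ht
  choose Wf hW1 hW2 using fun x0 : Fin d → F => cls d k f hf L L' hprod x0
  set M := k * Nat.card L' ^ ((k + 1) ^ (2 * d)) with hM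
  set B : Set ((Fin d → F) × F × F) :=
    {w | 2 * w.2.2 - eval (Sum.elim w.1 w.1) f ∈ Wf w.1 w.2.1} with hBdef
  have hb : B.ncard ≤ (k + 1 + M) * Fintype.card F ^ (d + 1) :=
    bad d k M (fun x0 => eval (Sum.elim x0 x0) f) Wf (dia d k f hf hD) (fun x0 c hc => hW2 x0 c hc)
  have hBc : 2 * B.ncard * Fintype.card F ^ e ≤ (Fintype.card F - 1) * Fintype.card V := by
    refine le_trans ?_ hB
    set Z := Fintype.card K ^ ((k * t + 1) * (k + 1) ^ (2 * d)) with hZ
    have hZ1 : 1 ≤ Z := Nat.one_le_pow _ _ Fintype.card_pos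
    have hMZ : M ≤ k * Z := by
      rw [hM, hZ, pow_mul (Fintype.card K) (k * t + 1)]
      exact Nat.mul_le_mul_left _ (Nat.pow_le_pow_left hL' _)
    have hcoef : 2 * (k + 1 + M) ≤ 4 * (k + 1) * Z := by nlinarith
    calc 2 * B.ncard * Fintype.card F ^ e ≤ 2 * ((k + 1 + M) * Fintype.card F ^ (d + 1)) * Fintype.card F ^ e :=
          Nat.mul_le_mul_right _ (Nat.mul_le_mul_left _ hb)
      _ = 2 * (k + 1 + M) * Fintype.card F ^ (d + e + 1) := by ring
      _ ≤ 4 * (k + 1) * Z * Fintype.card F ^ (d + e + 1) := Nat.mul_le_mul_right _ hcoef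
  obtain ⟨x0, γ, -, U, hU, hc⟩ := cnt d e x y z hinj (L : Set F) B hBc
  obtain ⟨I, hI, hUI⟩ := half G U (fun u => (QuotientAddGroup.mk (z u) : F ⧸ Wf x0 γ))
    (QuotientAddGroup.mk (eval (Sum.elim x0 x0) f)) (by
      intro u hu heq
      apply (hU u hu).2
      rw [← QuotientAddGroup.mk_add, eq_comm, QuotientAddGroup.eq] at heq
      have h3 : 2 * z u - eval (Sum.elim x0 x0) f = -eval (Sum.elim x0 x0) f + (z u + z u) := by ring
      show 2 * z u - eval (Sum.elim x0 x0) f ∈ Wf x0 γ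
      rw [h3]
      exact heq) (by
      intro u hu v hv huv
      obtain ⟨⟨s, hs, hxs⟩, -⟩ := hU u hu
      obtain ⟨⟨s', hs', hxs'⟩, -⟩ := hU v hv
      have h1 := hW1 x0 γ s s' hs hs'
      have h2 : (fun i => x0 i + γ * s i) = x u := funext fun i => (hxs i).symm
      have h3 : (fun i => x0 i + γ * s' i) = x v := funext fun i => (hxs' i).symm
      rw [h2, h3, ← hG u v huv] at h1
      rw [← QuotientAddGroup.mk_add, eq_comm, QuotientAddGroup.eq]
      have h4 : -eval (Sum.elim x0 x0) f + (z u + z v) = z u + z v - eval (Sum.elim x0 x0) f := by ring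
      rw [h4]
      exact h1)
  refine ⟨I, hI, ?_⟩
  have hn : (L : Set F).ncard = Fintype.card K ^ t := by
    rw [← hL]
    exact (Nat.card_coe_set_eq _).symm
  rw [← hn]
  calc Fintype.card V * (L : Set F).ncard ^ d ≤ 2 * Fintype.card F ^ d * U.card := hc
    _ ≤ 2 * Fintype.card F ^ d * (2 * I.card) := Nat.mul_le_mul_left _ hUI
    _ = 4 * Fintype.card F ^ d * I.card := by ring
-- END cor

-- BEGIN par
private theorem par_one (k P D n : ℕ) (Q δ : ℝ) (hQ64 : 64 * ((k : ℝ) + 1) ^ 2 + 2 ≤ Q)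
    (hP4 : (P : ℝ) ^ 4 ≤ Q) (hδ4 : δ ≤ 1 / 32) (hn : Q ^ ((D : ℝ) - δ) ≤ n) :
    4 * ((k : ℝ) + 1) * P * Q ^ D ≤ (Q - 1) * n := by
  have hk0 : (0 : ℝ) ≤ k := Nat.cast_nonneg k
  have hk2 : (0 : ℝ) ≤ ((k : ℝ) + 1) ^ 2 := sq_nonneg _
  have hQ2 : 2 ≤ Q := by linarith
  have hQ1 : 1 < Q := by linarith
  have hQ0 : 0 < Q := by linarith
  obtain ⟨s, hs⟩ : ∃ s : ℝ, s = Q ^ ((1 : ℝ) / 4) := ⟨_, rfl⟩
  have hs0 : 0 < s := by rw [hs]; exact Real.rpow_pos_of_pos hQ0 _
  have hs4 : s ^ 4 = Q := by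
    rw [hs, ← Real.rpow_natCast, ← Real.rpow_mul hQ0.le]
    norm_num
  have hPs : (P : ℝ) ≤ s := by
    refine le_of_pow_le_pow_left₀ (n := 4) (by norm_num) hs0.le ?_
    rw [hs4]
    exact hP4
  have hs2 : 8 * ((k : ℝ) + 1) ≤ s ^ 2 := by
    have e1 : (8 * ((k : ℝ) + 1)) ^ 2 ≤ (s ^ 2) ^ 2 := by
      rw [← pow_mul, hs4, mul_pow]
      linarith
    exact le_of_pow_le_pow_left₀ (n := 2) (by norm_num) (by positivity) e1
  have hn2 : Q ^ D ≤ s * n := by
    have e1 : Q ^ ((D : ℝ) - 1 / 4) ≤ n :=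
      le_trans (Real.rpow_le_rpow_of_exponent_le hQ1.le (by linarith)) hn
    have e2 : Q ^ ((D : ℝ) - 1 / 4) = Q ^ D / s := by
      rw [Real.rpow_sub hQ0, hs, Real.rpow_natCast]
    rw [e2, div_le_iff₀ hs0] at e1
    linarith
  have hn0 : (0 : ℝ) ≤ n := Nat.cast_nonneg n
  have hP0 : (0 : ℝ) ≤ P := Nat.cast_nonneg P
  have e1 : 4 * ((k : ℝ) + 1) * P * s ≤ Q - 1 := by
    have e2 : 4 * ((k : ℝ) + 1) * P * s ≤ 4 * ((k : ℝ) + 1) * s * s := by
      refine mul_le_mul_of_nonneg_right ?_ hs0.le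
      exact mul_le_mul_of_nonneg_left hPs (by positivity)
    have e3 : 8 * ((k : ℝ) + 1) * s ^ 2 ≤ s ^ 2 * s ^ 2 :=
      mul_le_mul_of_nonneg_right hs2 (sq_nonneg s)
    have e4 : s ^ 2 * s ^ 2 = Q := by rw [← pow_add, hs4]
    have e5 : 4 * ((k : ℝ) + 1) * s * s = 8 * ((k : ℝ) + 1) * s ^ 2 / 2 := by ring
    rw [e5] at e2
    linarith
  calc 4 * ((k : ℝ) + 1) * P * Q ^ D ≤ 4 * ((k : ℝ) + 1) * P * (s * n) :=
        mul_le_mul_of_nonneg_left hn2 (by positivity)
    _ = 4 * ((k : ℝ) + 1) * P * s * n := by ring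
    _ ≤ (Q - 1) * n := mul_le_mul_of_nonneg_right e1 hn0

private theorem par_two (d e n i : ℕ) (hde : d ≤ e + 1) (κ δ Q x : ℝ) (hκ0 : 0 < κ)
    (hκ1 : κ ≤ 1 / 8) (hδ4 : δ ≤ 1 / 32) (hδκ : δ * (2 * ((d : ℝ) + e + 2)) = κ) (hQ1 : 1 < Q)
    (h4 : 4 ≤ Q ^ (κ / 2)) (hx : Q ^ κ ≤ x) (hn : Q ^ ((d : ℝ) + e + 1 - δ) ≤ n)
    (hi : (n : ℝ) * x ^ d ≤ 4 * Q ^ d * i) : (n : ℝ) ^ ((1 : ℝ) / 2 + δ) ≤ i := by
  have hQ0 : 0 < Q := by linarith
  have hd0 : (0 : ℝ) ≤ d := Nat.cast_nonneg d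
  have he0 : (0 : ℝ) ≤ e := Nat.cast_nonneg e
  have hnpos : (0 : ℝ) < n := lt_of_lt_of_le (Real.rpow_pos_of_pos hQ0 _) hn
  have hptd : Q ^ (κ * d) ≤ x ^ d := by
    rw [Real.rpow_mul hQ0.le, Real.rpow_natCast]
    exact pow_le_pow_left₀ (Real.rpow_nonneg hQ0.le _) hx d
  have hexp : (d : ℝ) * (1 - κ) + κ / 2 ≤ ((d : ℝ) + e + 1 - δ) * (1 / 2 - δ) := by
    have e1 : (d : ℝ) * (1 - κ) + κ ≤ ((d : ℝ) + e + 1) / 2 := by
      rcases Nat.eq_zero_or_pos d with h0 | h0
      · rw [h0, Nat.cast_zero, zero_mul]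
        linarith
      · have e2 : (1 : ℝ) ≤ d := by exact_mod_cast h0
        have e3 : (d : ℝ) ≤ e + 1 := by exact_mod_cast hde
        have e4 : κ * 1 ≤ κ * d := mul_le_mul_of_nonneg_left e2 hκ0.le
        linarith
    have e5 : ((d : ℝ) + e + 1 - δ) * (1 / 2 - δ) =
        ((d : ℝ) + e + 1) / 2 - δ * (2 * ((d : ℝ) + e + 2)) / 2 + (δ / 2 + δ ^ 2) := by ring
    have e6 : 0 ≤ δ / 2 + δ ^ 2 := by
      have : 0 < δ := by
        by_contra hc
        have e7 : δ * (2 * ((d : ℝ) + e + 2)) ≤ 0 :=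
          mul_nonpos_of_nonpos_of_nonneg (not_lt.1 hc) (by positivity)
        linarith
      positivity
    rw [e5, hδκ]
    linarith
  have hmain : 4 * Q ^ d ≤ (n : ℝ) ^ ((1 : ℝ) / 2 - δ) * x ^ d := by
    have e1 : Q ^ ((d : ℝ) * (1 - κ) + κ / 2) ≤ (n : ℝ) ^ ((1 : ℝ) / 2 - δ) := by
      calc Q ^ ((d : ℝ) * (1 - κ) + κ / 2) ≤ Q ^ (((d : ℝ) + e + 1 - δ) * (1 / 2 - δ)) :=
            Real.rpow_le_rpow_of_exponent_le hQ1.le hexp
        _ = (Q ^ ((d : ℝ) + e + 1 - δ)) ^ ((1 : ℝ) / 2 - δ) := Real.rpow_mul hQ0.le _ _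
        _ ≤ (n : ℝ) ^ ((1 : ℝ) / 2 - δ) :=
            Real.rpow_le_rpow (Real.rpow_nonneg hQ0.le _) hn (by linarith)
    have e2 : Q ^ ((d : ℝ) * (1 - κ) + κ / 2) * Q ^ (κ * d) = Q ^ d * Q ^ (κ / 2) := by
      rw [← Real.rpow_natCast, ← Real.rpow_add hQ0, ← Real.rpow_add hQ0]
      congr 1
      ring
    calc 4 * Q ^ d ≤ Q ^ (κ / 2) * Q ^ d := mul_le_mul_of_nonneg_right h4 (by positivity)
      _ = Q ^ ((d : ℝ) * (1 - κ) + κ / 2) * Q ^ (κ * d) := by rw [e2, mul_comm]
      _ ≤ (n : ℝ) ^ ((1 : ℝ) / 2 - δ) * x ^ d :=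
          mul_le_mul e1 hptd (Real.rpow_nonneg hQ0.le _) (Real.rpow_nonneg hnpos.le _)
  have hsplit : (n : ℝ) = (n : ℝ) ^ ((1 : ℝ) / 2 + δ) * (n : ℝ) ^ ((1 : ℝ) / 2 - δ) := by
    rw [← Real.rpow_add hnpos, show (1 : ℝ) / 2 + δ + (1 / 2 - δ) = 1 by ring, Real.rpow_one]
  have hx : (n : ℝ) ^ ((1 : ℝ) / 2 + δ) * (4 * Q ^ d) ≤ i * (4 * Q ^ d) := by
    calc (n : ℝ) ^ ((1 : ℝ) / 2 + δ) * (4 * Q ^ d)
        ≤ (n : ℝ) ^ ((1 : ℝ) / 2 + δ) * ((n : ℝ) ^ ((1 : ℝ) / 2 - δ) * x ^ d) :=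
          mul_le_mul_of_nonneg_left hmain (Real.rpow_nonneg hnpos.le _)
      _ = n * x ^ d := by rw [← mul_assoc, ← hsplit]
      _ ≤ 4 * Q ^ d * i := hi
      _ = i * (4 * Q ^ d) := by ring
  exact le_of_mul_le_mul_right hx (by positivity)

/-- `A = (k + 1) ^ (2 d)`, `κ = 1 / (8 A (k + 1))`, `δ = κ / (2 (d + e + 2))`, `t = r / (4 A (k + 1))` (rounded down), `R0` so large that `2 ^ (κ R0 / 2) ≥ 4`, `2 ^ (R0 / 2) ≥ 8 (k + 1)` and `R0 ≥ 4 A (k + 1)`
(then `1 ≤ t`, `(k t + 1) A ≤ r / 4`, `t ≥ κ r`). With `q = p ^ r`: `(q - 1) n ≥ (q / 2) q ^ (d + e + 1 - δ) ≥ 4 (k + 1) q ^ (1/4) q ^ (d + e + 1)`, and from `n q ^ (κ d) ≤ 4 q ^ d i`: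
`n ^ (1/2 - δ) ≥ q ^ ((d + e + 1) / 2 - δ (d + e + 2)) ≥ q ^ (d (1 - κ) + κ / 2) ≥ 4 q ^ (d (1 - κ))`, using `(d + e + 1) / 2 ≥ d (1 - κ) + κ`, true as `d ≤ e + 1` (`d = 0` separately). -/
theorem par (d e k : ℕ) (hde : d ≤ e + 1) : ∃ δ : ℝ, 0 < δ ∧ ∃ R0 : ℕ, 1 ≤ R0 ∧ ∀ p r : ℕ, 2 ≤ p → R0 ≤ r →
    ∃ t : ℕ, t ≤ r ∧ ∀ n : ℕ, ((p ^ r : ℕ) : ℝ) ^ ((d : ℝ) + e + 1 - δ) ≤ n →
      4 * (k + 1) * p ^ ((k * t + 1) * (k + 1) ^ (2 * d)) * (p ^ r) ^ (d + e + 1) ≤ (p ^ r - 1) * n ∧
      ∀ i : ℕ, n * (p ^ t) ^ d ≤ 4 * (p ^ r) ^ d * i → (n : ℝ) ^ ((1 : ℝ) / 2 + δ) ≤ i := by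
  obtain ⟨A, hA⟩ : ∃ A : ℕ, A = (k + 1) ^ (2 * d) := ⟨_, rfl⟩
  have hA1 : 1 ≤ A := by rw [hA]; exact Nat.one_le_pow _ _ (Nat.succ_pos k)
  obtain ⟨B, hB⟩ : ∃ B : ℕ, B = 4 * A * (k + 1) := ⟨_, rfl⟩
  have hB4 : 4 ≤ B := by
    rw [hB, mul_assoc]
    have : 1 ≤ A * (k + 1) := Nat.mul_pos hA1 (Nat.succ_pos k)
    omega
  have hB0 : 0 < B := by omega
  have hBr : (4 : ℝ) ≤ B := by exact_mod_cast hB4
  obtain ⟨κ, hκ⟩ : ∃ κ : ℝ, κ = 1 / (2 * B) := ⟨_, rfl⟩
  have hκ0 : 0 < κ := by rw [hκ]; positivity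
  have hκB : κ * (2 * B) = 1 := by
    rw [hκ]
    field_simp
  have hκ1 : κ ≤ 1 / 8 := by
    have := mul_le_mul_of_nonneg_left hBr hκ0.le
    linarith
  obtain ⟨δ, hδ⟩ : ∃ δ : ℝ, δ = κ / (2 * ((d : ℝ) + e + 2)) := ⟨_, rfl⟩
  have hde0 : (0 : ℝ) < 2 * ((d : ℝ) + e + 2) := by positivity
  have hδ0 : 0 < δ := by rw [hδ]; positivity
  have hδκ : δ * (2 * ((d : ℝ) + e + 2)) = κ := by
    rw [hδ]
    field_simp
  have hd0 : (0 : ℝ) ≤ d := Nat.cast_nonneg d
  have he0 : (0 : ℝ) ≤ e := Nat.cast_nonneg e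
  have hδ4 : δ ≤ 1 / 32 := by
    have e1 := mul_nonneg hδ0.le hd0
    have e2 := mul_nonneg hδ0.le he0
    have e3 : δ * (2 * ((d : ℝ) + e + 2)) = 2 * (δ * d) + 2 * (δ * e) + 4 * δ := by ring
    linarith
  refine ⟨δ, hδ0, 64 * (k + 1) ^ 2 + 8 * B, by omega, fun p r hp hr =>
    ⟨r / B, Nat.div_le_self _ _, fun n hn => ?_⟩⟩
  obtain ⟨t, ht⟩ : ∃ t : ℕ, t = r / B := ⟨_, rfl⟩
  rw [← ht]
  have hrB : B ≤ r := by omega
  have ht1 : 1 ≤ t := by rw [ht]; exact Nat.div_pos hrB hB0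
  have htB : t * B ≤ r := by rw [ht]; exact Nat.div_mul_le_self r B
  have ht2 : r ≤ 2 * t * B := by
    have e1 := Nat.div_add_mod r B
    have e2 := Nat.mod_lt r hB0
    rw [← ht] at e1
    have e3 : 1 * B ≤ t * B := Nat.mul_le_mul_right B ht1
    have e4 : 2 * t * B = B * t + t * B := by ring
    rw [e4]
    omega
  obtain ⟨Q, hQ⟩ : ∃ Q : ℝ, Q = ((p ^ r : ℕ) : ℝ) := ⟨_, rfl⟩
  rw [← hQ] at hn
  have hp2 : (2 : ℝ) ≤ p := by exact_mod_cast hp
  have hQp : Q = (p : ℝ) ^ r := by rw [hQ]; push_cast; rfl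
  have hQ2 : (2 : ℝ) ^ r ≤ Q := by
    rw [hQp]
    exact pow_le_pow_left₀ (by norm_num) hp2 r
  have h2r : 64 * (k + 1) ^ 2 + 2 ≤ 2 ^ r := by
    have e1 : r < 2 ^ r := Nat.lt_two_pow_self
    omega
  have hQ64 : 64 * ((k : ℝ) + 1) ^ 2 + 2 ≤ Q := by
    refine le_trans ?_ hQ2
    exact_mod_cast h2r
  have hQ1 : 1 < Q := by
    have : (0 : ℝ) ≤ ((k : ℝ) + 1) ^ 2 := sq_nonneg _
    linarith
  have hQ0 : 0 < Q := by linarith
  constructor
  · have hP4 : (((p ^ ((k * t + 1) * (k + 1) ^ (2 * d)) : ℕ) : ℝ)) ^ 4 ≤ Q := by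
      rw [hQ]
      have e1 : (p ^ ((k * t + 1) * (k + 1) ^ (2 * d))) ^ 4 ≤ p ^ r := by
        rw [← pow_mul]
        refine Nat.pow_le_pow_right (by omega) ?_
        refine le_trans ?_ htB
        rw [← hA, hB]
        have e2 : k * t + 1 ≤ (k + 1) * t := by
          rw [add_mul, one_mul]
          omega
        calc (k * t + 1) * A * 4 ≤ (k + 1) * t * A * 4 :=
              Nat.mul_le_mul_right 4 (Nat.mul_le_mul_right A e2)
          _ = t * (4 * A * (k + 1)) := by ring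
      exact_mod_cast e1
    have hn' : Q ^ (((d + e + 1 : ℕ) : ℝ) - δ) ≤ n := by
      push_cast
      exact hn
    have hfin := par_one k _ (d + e + 1) n Q δ hQ64 hP4 hδ4 hn'
    have hq1 : 1 ≤ p ^ r := Nat.one_le_pow _ _ (by omega)
    have hcast : ((4 * (k + 1) * p ^ ((k * t + 1) * (k + 1) ^ (2 * d)) * (p ^ r) ^ (d + e + 1) : ℕ) : ℝ) ≤
        (((p ^ r - 1) * n : ℕ) : ℝ) := by
      rw [Nat.cast_mul (p ^ r - 1) n, Nat.cast_sub hq1, ← hQ, Nat.cast_mul, Nat.cast_mul,
        Nat.cast_pow (p ^ r), ← hQ, Nat.cast_one]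
      have e1 : ((4 * (k + 1) : ℕ) : ℝ) = 4 * ((k : ℝ) + 1) := by push_cast; ring
      rw [e1]
      exact hfin
    exact_mod_cast hcast
  · intro i hi
    have hi' : (n : ℝ) * ((p : ℝ) ^ t) ^ d ≤ 4 * Q ^ d * i := by
      rw [hQp]
      exact_mod_cast hi
    have hpt : Q ^ κ ≤ (p : ℝ) ^ t := by
      rw [hQp, ← Real.rpow_natCast, ← Real.rpow_natCast, ← Real.rpow_mul (by linarith)]
      refine Real.rpow_le_rpow_of_exponent_le (by linarith) ?_
      have e1 : (r : ℝ) ≤ 2 * t * B := by exact_mod_cast ht2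
      have e2 : κ * r ≤ κ * (2 * t * B) := mul_le_mul_of_nonneg_left e1 hκ0.le
      have e3 : κ * (2 * t * B) = t := by
        calc κ * (2 * t * B) = κ * (2 * B) * t := by ring
          _ = t := by rw [hκB, one_mul]
      linarith
    have h4 : 4 ≤ Q ^ (κ / 2) := by
      have e1 : ((2 : ℝ) ^ r) ^ (κ / 2) ≤ Q ^ (κ / 2) :=
        Real.rpow_le_rpow (by positivity) hQ2 (by positivity)
      refine le_trans ?_ e1
      rw [← Real.rpow_natCast, ← Real.rpow_mul (by norm_num)]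
      have e2 : (2 : ℝ) ≤ r * (κ / 2) := by
        have e3 : (8 * B : ℝ) ≤ r := by
          have : 8 * B ≤ r := by omega
          exact_mod_cast this
        have e4 : (8 * B : ℝ) * (κ / 2) ≤ r * (κ / 2) :=
          mul_le_mul_of_nonneg_right e3 (by positivity)
        have e5 : (8 * B : ℝ) * (κ / 2) = 2 := by
          calc (8 * B : ℝ) * (κ / 2) = 2 * (κ * (2 * B)) := by ring
            _ = 2 := by rw [hκB, mul_one]
        linarith
      calc (4 : ℝ) = (2 : ℝ) ^ (2 : ℝ) := by norm_num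
        _ ≤ (2 : ℝ) ^ ((r : ℝ) * (κ / 2)) :=
            Real.rpow_le_rpow_of_exponent_le (by norm_num) e2
    exact par_two d e n i hde κ δ Q _ hκ0 hκ1 hδ4 hδκ hQ1 h4 hpt hn hi'
-- END par

/-! ## Part 2: bounded degree over the prime field -/

-- BEGIN wei
private theorem wei_aux {F ι σ : Type} [Field F] (q : ι → MvPolynomial σ F) (hq : ∀ i, (q i).totalDegree ≤ 1)
    (f : MvPolynomial ι F) : (bind₁ q f).totalDegree ≤ f.totalDegree := by
  classical
  conv_lhs => rw [f.as_sum, map_sum]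
  refine totalDegree_finsetSum_le fun m hm => ?_
  rw [bind₁_monomial]
  refine (totalDegree_mul _ _).trans ?_
  rw [totalDegree_C, zero_add]
  refine (totalDegree_finsetProd _ _).trans ?_
  refine (Finset.sum_le_sum fun i _ => ?_).trans (le_totalDegree hm)
  exact (totalDegree_pow _ _).trans (by simpa using Nat.mul_le_mul_left (m i) (hq i))

/-- Restriction of scalars. Substitute `X i ↦ ∑ j, C (b j) * X (i, j)` and apply `ℓ` to the coefficients: `g = ∑ m ∈ f'.support, monomial m (ℓ (f'.coeff m))`, where `f' = bind₁ (fun i => ∑ j, C (b j) * X (i, j)) f`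
has total degree `≤ f.totalDegree`. At a point with coordinates in `K`: `ℓ (coeff m * algebraMap (∏ ..)) = ℓ (coeff m) * ∏ ..`. -/
theorem wei {K F ι : Type} [Field K] [Field F] [Algebra K F] [Fintype ι] {r : ℕ} (b : Module.Basis (Fin r) K F)
    (ℓ : F →ₗ[K] K) (f : MvPolynomial ι F) :
    ∃ g : MvPolynomial (ι × Fin r) K, g.totalDegree ≤ f.totalDegree ∧
      ∀ a : ι → F, eval (fun w : ι × Fin r => b.repr (a w.1) w.2) g = ℓ (eval a f) := by
  classical
  let q : ι → MvPolynomial (ι × Fin r) F := fun i => ∑ j : Fin r, C (b j) * X (i, j)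
  have hq : ∀ i, (q i).totalDegree ≤ 1 := by
    intro i
    refine totalDegree_finsetSum_le fun j _ => ?_
    refine (totalDegree_mul _ _).trans ?_
    rw [totalDegree_C, zero_add]
    exact (totalDegree_X _).le
  let f' := bind₁ q f
  have hf' : f'.totalDegree ≤ f.totalDegree := wei_aux q hq f
  refine ⟨∑ m ∈ f'.support, monomial m (ℓ (f'.coeff m)), ?_, ?_⟩
  · refine totalDegree_finsetSum_le fun m hm => ?_
    refine (totalDegree_monomial_le m _).trans ?_
    exact (le_totalDegree hm).trans hf'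
  · intro a
    have h1 : eval a f = eval (fun w : ι × Fin r => algebraMap K F (b.repr (a w.1) w.2)) f' := by
      change eval₂Hom (RingHom.id F) a f = eval₂Hom (RingHom.id F) _ (bind₁ q f)
      rw [eval₂Hom_bind₁]
      congr 2
      funext i
      change a i = eval _ (∑ j : Fin r, C (b j) * X (i, j))
      simp only [map_sum, map_mul, eval_C, eval_X]
      conv_lhs => rw [← b.sum_repr (a i)]
      refine Finset.sum_congr rfl fun j _ => ?_
      rw [Algebra.smul_def, mul_comm]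
    rw [h1, eval_eq' (fun w : ι × Fin r => algebraMap K F (b.repr (a w.1) w.2)) f', map_sum, map_sum]
    refine Finset.sum_congr rfl fun m _ => ?_
    rw [eval_monomial, Finsupp.prod_fintype _ _ (fun _ => pow_zero _)]
    have h2 : ∏ i : ι × Fin r, algebraMap K F (b.repr (a i.1) i.2) ^ m i =
        algebraMap K F (∏ i : ι × Fin r, b.repr (a i.1) i.2 ^ m i) := by
      rw [map_prod]
      exact Finset.prod_congr rfl fun _ _ => (map_pow _ _ _).symm
    rw [h2, mul_comm (coeff m f'), ← Algebra.smul_def, map_smul, smul_eq_mul, mul_comm]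
-- END wei

/-- the statement for one field -/
def Good (d e k : ℕ) (δ : ℝ) (F : Type) [Field F] [Fintype F] : Prop :=
  ∀ f : MvPolynomial (Fin d ⊕ Fin d) F, f.totalDegree ≤ k →
    ((2 : F) = 0 → rename (Sum.elim id id : Fin d ⊕ Fin d → Fin d) f ≠ 0) →
    ∀ (V : Type) [Fintype V] (G : SimpleGraph V) (x : V → Fin d → F) (y : V → Fin e → F) (z : V → F),
      Function.Injective (fun v => (x v, y v, z v)) →
      (Fintype.card F : ℝ) ^ ((d : ℝ) + e + 1 - δ) ≤ Fintype.card V →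
      (∀ u v, G.Adj u v → z u + z v = eval (Sum.elim (x u) (x v)) f) →
      ∃ I : Finset V, G.IsIndepSet (I : Set V) ∧ (Fintype.card V : ℝ) ^ ((1 : ℝ) / 2 + δ) ≤ I.card

-- BEGIN mon
theorem mon {d e k : ℕ} {δ δ' : ℝ} {F : Type} [Field F] [Fintype F] (h : Good d e k δ F) (hδ : δ' ≤ δ) :
    Good d e k δ' F := by
  intro f hf h2 V _ G x y z hinj hcard hG
  have hF : (1 : ℝ) ≤ Fintype.card F := by exact_mod_cast Fintype.card_pos (α := F)
  have hV0 : (0 : ℝ) < Fintype.card V := lt_of_lt_of_le (Real.rpow_pos_of_pos (by linarith) _) hcard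
  have hV : (1 : ℝ) ≤ Fintype.card V := by
    have : 0 < Fintype.card V := by exact_mod_cast hV0
    exact_mod_cast this
  obtain ⟨I, hI, hc⟩ := h f hf h2 V G x y z hinj
    ((Real.rpow_le_rpow_of_exponent_le hF (by linarith)).trans hcard) hG
  exact ⟨I, hI, (Real.rpow_le_rpow_of_exponent_le hV (by linarith)).trans hc⟩
-- END mon

-- BEGIN alg
/-- The theorem over prime fields. -/
theorem alg (d e k : ℕ) (hde : d ≤ e + 1) :
    ∃ δ : ℝ, 0 < δ ∧ ∃ p₀ : ℕ, ∀ (p : ℕ) [Fact p.Prime], p₀ ≤ p →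
      ∀ f : MvPolynomial (Fin d ⊕ Fin d) (ZMod p), f.totalDegree ≤ k →
      ∀ (V : Type) [Fintype V] (G : SimpleGraph V) (x : V → Fin d → ZMod p) (y : V → Fin e → ZMod p)
        (z : V → ZMod p),
        Function.Injective (fun v => (x v, y v, z v)) →
        (p : ℝ) ^ ((d : ℝ) + e + 1 - δ) ≤ Fintype.card V →
        (∀ u v, G.Adj u v → z u + z v = MvPolynomial.eval (Sum.elim (x u) (x v)) f) →
        ∃ I : Finset V, G.IsIndepSet (I : Set V) ∧ (Fintype.card V : ℝ) ^ ((1 : ℝ) / 2 + δ) ≤ I.card := by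
  obtain ⟨δ, hδ, p₀, hp₀, h⟩ := Pool.Agent.C4f.params d e k hde
  refine ⟨δ, hδ, p₀, ?_⟩
  intro p _ hp f hf V _ G x y z hinj hV hG
  have hn : Fintype.card V ≤ p ^ (d + e + 1) := by
    have h1 := Fintype.card_le_of_injective _ hinj
    rw [Fintype.card_prod, Fintype.card_prod, Fintype.card_fun, Fintype.card_fun, ZMod.card, Fintype.card_fin,
      Fintype.card_fin] at h1
    refine h1.trans (le_of_eq ?_)
    rw [pow_add, pow_add, pow_one, mul_assoc]
  obtain ⟨Q, L, R, hRp, hQ, hQ1, hR, hV1, hV2, hI⟩ := h p hp (Fintype.card V) hV hn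
  obtain ⟨I, hI1, hI2⟩ := Pool.Agent.C4f.coreA p (by omega) d e k f hf G x y z hinj hG Q L R hRp hQ hQ1 hR hV1 hV2
  exact ⟨I, hI1, hI _ hI2⟩
-- END alg

-- BEGIN ali
/-- The same with arbitrary finite index types: `alg` for `d = card D`, `e = card E` and the equivalences `D ≃ Fin d`, `E ≃ Fin e` (`Fintype.equivFin`, `rename`, `totalDegree_rename_le`, `eval_rename`). -/
theorem ali (D E : Type) [Fintype D] [Fintype E] (k : ℕ) (hde : Fintype.card D ≤ Fintype.card E + 1) :
    ∃ δ : ℝ, 0 < δ ∧ ∃ p₀ : ℕ, ∀ (p : ℕ) [Fact p.Prime], p₀ ≤ p →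
      ∀ f : MvPolynomial (D ⊕ D) (ZMod p), f.totalDegree ≤ k →
      ∀ (V : Type) [Fintype V] (G : SimpleGraph V) (x : V → D → ZMod p) (y : V → E → ZMod p)
        (z : V → ZMod p),
        Function.Injective (fun v => (x v, y v, z v)) →
        (p : ℝ) ^ ((Fintype.card D : ℝ) + Fintype.card E + 1 - δ) ≤ Fintype.card V →
        (∀ u v, G.Adj u v → z u + z v = MvPolynomial.eval (Sum.elim (x u) (x v)) f) →
        ∃ I : Finset V, G.IsIndepSet (I : Set V) ∧ (Fintype.card V : ℝ) ^ ((1 : ℝ) / 2 + δ) ≤ I.card := by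
  obtain ⟨δ, hδ, p₀, H⟩ := alg (Fintype.card D) (Fintype.card E) k hde
  refine ⟨δ, hδ, p₀, ?_⟩
  intro p hp hp0 f hf V _ G x y z hinj hcard hadj
  refine H p hp0 (rename (Sum.map (Fintype.equivFin D) (Fintype.equivFin D)) f)
    (le_trans (totalDegree_rename_le _ _) hf) V G (fun v i => x v ((Fintype.equivFin D).symm i))
    (fun v i => y v ((Fintype.equivFin E).symm i)) z ?_ hcard ?_
  · intro u v h
    apply hinj
    have h1 := congrArg Prod.fst h
    have h2 := congrArg (fun t => t.2.1) h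
    have h3 := congrArg (fun t => t.2.2) h
    have e1 : x u = x v := by
      funext i
      have h4 := congrFun h1 (Fintype.equivFin D i)
      simpa using h4
    have e2 : y u = y v := by
      funext i
      have h4 := congrFun h2 (Fintype.equivFin E i)
      simpa using h4
    exact Prod.ext e1 (Prod.ext e2 h3)
  · intro u v huv
    rw [hadj u v huv, eval_rename]
    have h5 : (Sum.elim (fun i => x u ((Fintype.equivFin D).symm i)) (fun i => x v ((Fintype.equivFin D).symm i)) ∘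
        Sum.map (Fintype.equivFin D) (Fintype.equivFin D)) = Sum.elim (x u) (x v) := by
      funext s
      rcases s with s | s <;> simp
    rw [h5]
-- END ali

-- BEGIN red
/-- `F` has a basis `b` over `ZMod p` indexed by `Fin r` (`ZMod.algebra F p`, `Module.finBasisOfFinrankEq`, `Module.card_eq_pow_finrank`), `r = r' + 1`. `ali` with `D = Fin d × Fin r`, `E = (Fin e × Fin r) ⊕ Fin r'`:
`x'` = coordinates of `x`, `y'` = coordinates of `y` and the coordinates `j.succ` of `z`, `z'` = coordinate `0` of `z`; `wei` with `ℓ = b.coord 0`, renamed along `(Fin d ⊕ Fin d) × Fin r ≃ (Fin d × Fin r) ⊕ (Fin d × Fin r)`.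
`δ = δ' / r`: `q ^ (d + e + 1 - δ) = p ^ (r (d + e + 1) - δ')`, `card D + card E + 1 = r (d + e + 1)`. The cardinality of `V` is `≥ 1`, so the exponent `1/2 + δ'` may be lowered. -/
theorem red (d e k r : ℕ) (hr : 1 ≤ r) (hde : d ≤ e + 1) :
    ∃ δ : ℝ, 0 < δ ∧ ∃ p₀ : ℕ, ∀ (p : ℕ) [Fact p.Prime], p₀ ≤ p → ∀ (F : Type) [Field F] [Fintype F],
      Fintype.card F = p ^ r → Good d e k δ F := by
  obtain ⟨r', rfl⟩ : ∃ r', r = r' + 1 := ⟨r - 1, by omega⟩
  have hcD : Fintype.card (Fin d × Fin (r' + 1)) = d * (r' + 1) := by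
    rw [Fintype.card_prod, Fintype.card_fin, Fintype.card_fin]
  have hcE : Fintype.card ((Fin e × Fin (r' + 1)) ⊕ Fin r') = e * (r' + 1) + r' := by
    rw [Fintype.card_sum, Fintype.card_prod, Fintype.card_fin, Fintype.card_fin, Fintype.card_fin]
  obtain ⟨δ', hδ', p₀, hp₀⟩ := ali (Fin d × Fin (r' + 1)) ((Fin e × Fin (r' + 1)) ⊕ Fin r') k (by
    rw [hcD, hcE]
    have := Nat.mul_le_mul_right (r' + 1) hde
    rw [Nat.add_mul] at this
    omega)
  have hr0 : (0 : ℝ) < (r' : ℝ) + 1 := by positivity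
  refine ⟨δ' / ((r' : ℝ) + 1), by positivity, p₀, ?_⟩
  intro p _ hp F _ _ hcard f hf _ V _ G x y z hinj hV hadj
  have hchar : CharP F p := charP_of_card_eq_prime_pow hcard
  let _ : Algebra (ZMod p) F := ZMod.algebra F p
  have hpp : p.Prime := Fact.out
  have hfr : Module.finrank (ZMod p) F = r' + 1 := by
    have h1 := Module.card_eq_pow_finrank (K := ZMod p) (V := F)
    rw [ZMod.card, hcard] at h1
    exact (Nat.pow_right_injective hpp.two_le h1).symm
  let b : Module.Basis (Fin (r' + 1)) (ZMod p) F := Module.finBasisOfFinrankEq (ZMod p) F hfr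
  obtain ⟨g, hg1, hg2⟩ := wei b (b.coord 0) f
  let σ : (Fin d ⊕ Fin d) × Fin (r' + 1) → (Fin d × Fin (r' + 1)) ⊕ (Fin d × Fin (r' + 1)) :=
    fun w => Sum.elim (fun i => Sum.inl (i, w.2)) (fun i => Sum.inr (i, w.2)) w.1
  obtain ⟨I, hI, hIc⟩ := hp₀ p hp (rename σ g) ((totalDegree_rename_le σ g).trans (hg1.trans hf)) V G
    (fun v w => b.repr (x v w.1) w.2)
    (fun v => Sum.elim (fun w => b.repr (y v w.1) w.2) (fun j => b.repr (z v) j.succ))
    (fun v => b.repr (z v) 0)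
    (by
      intro u v huv
      apply hinj
      have h1 := (Prod.ext_iff.1 huv).1
      have h2 := (Prod.ext_iff.1 (Prod.ext_iff.1 huv).2).1
      have h3 := (Prod.ext_iff.1 (Prod.ext_iff.1 huv).2).2
      have e1 : x u = x v := by
        funext i
        apply b.repr.injective
        ext j
        exact congrFun h1 (i, j)
      have e2 : y u = y v := by
        funext i
        apply b.repr.injective
        ext j
        exact congrFun h2 (Sum.inl (i, j))
      have e3 : z u = z v := by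
        apply b.repr.injective
        ext j
        refine Fin.cases ?_ (fun j => ?_) j
        · exact h3
        · exact congrFun h2 (Sum.inr j)
      exact Prod.ext e1 (Prod.ext e2 e3))
    (by
      refine le_trans (le_of_eq ?_) hV
      rw [hcD, hcE, hcard]
      push_cast
      rw [← Real.rpow_natCast, ← Real.rpow_mul (Nat.cast_nonneg p)]
      congr 1
      push_cast
      field_simp
      ring)
    (by
      intro u v huv
      have h1 := hadj u v huv
      have h2 := hg2 (Sum.elim (x u) (x v))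
      rw [eval_rename]
      have h3 : (Sum.elim (fun w : Fin d × Fin (r' + 1) => b.repr (x u w.1) w.2)
          (fun w : Fin d × Fin (r' + 1) => b.repr (x v w.1) w.2)) ∘ σ =
          fun w : (Fin d ⊕ Fin d) × Fin (r' + 1) => b.repr (Sum.elim (x u) (x v) w.1) w.2 := by
        funext w
        obtain ⟨w, j⟩ := w
        rcases w with i | i
        · rfl
        · rfl
      rw [h3, h2, ← h1, Module.Basis.coord_apply, map_add, Finsupp.add_apply])
  refine ⟨I, hI, le_trans ?_ hIc⟩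
  rcases Nat.eq_zero_or_pos (Fintype.card V) with h0 | h0
  · rw [h0, Nat.cast_zero, Real.zero_rpow (by positivity), Real.zero_rpow (by positivity)]
  · apply Real.rpow_le_rpow_of_exponent_le (by exact_mod_cast h0)
    have : δ' / ((r' : ℝ) + 1) ≤ δ' := div_le_self hδ'.le (by linarith [Nat.cast_nonneg (α := ℝ) r'])
    linarith
-- END red

-- BEGIN bnd
/-- Induction on `R0` with `red` for the last value, `mon`; `q₀ ≤ p ^ r` and `r ≤ R0` give `p₀ ≤ p` if `q₀ = p₀ ^ R0 + ..` (if `p < p₀` then `p ^ r < p₀ ^ R0` or so, `1 ≤ p₀` without loss). -/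
theorem bnd (d e k R0 : ℕ) (hde : d ≤ e + 1) :
    ∃ δ : ℝ, 0 < δ ∧ ∃ q₀ : ℕ, ∀ (p r : ℕ) [Fact p.Prime], 1 ≤ r → r ≤ R0 → q₀ ≤ p ^ r →
      ∀ (F : Type) [Field F] [Fintype F], Fintype.card F = p ^ r → Good d e k δ F := by
  induction R0 with
  | zero =>
    refine ⟨1, one_pos, 0, fun p r _ h1 h2 => ?_⟩
    omega
  | succ R ih =>
    obtain ⟨δ1, hδ1, q1, h1⟩ := ih
    obtain ⟨δ2, hδ2, p₀, h2⟩ := red d e k (R + 1) (Nat.le_add_left 1 R) hde
    refine ⟨min δ1 δ2, lt_min hδ1 hδ2, max q1 (p₀ ^ (R + 1)), ?_⟩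
    intro p r hp hr1 hr2 hq F _ _ hF
    rcases Nat.lt_or_ge r (R + 1) with hr | hr
    · exact mon (h1 p r hr1 (Nat.lt_succ_iff.1 hr) ((le_max_left _ _).trans hq) F hF)
        (min_le_left _ _)
    · obtain rfl : r = R + 1 := le_antisymm hr2 hr
      have h3 : p₀ ^ (R + 1) ≤ p ^ (R + 1) := (le_max_right _ _).trans hq
      have h4 : p₀ ≤ p := (Nat.pow_le_pow_iff_left (Nat.succ_ne_zero R)).1 h3
      exact mon (h2 p h4 F hF) (min_le_right _ _)
-- END bnd

-- BEGIN fin
/-- `par` gives `R0`; for `r ≥ R0` (`FiniteField.card'`) `cor` with `K = ZMod p` and `par`, for `r < R0` `bnd`. `δ` = the minimum, `mon`. -/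
theorem fin (d e k : ℕ) (hde : d ≤ e + 1) :
    ∃ δ : ℝ, 0 < δ ∧ ∃ q₀ : ℕ, ∀ (F : Type) [Field F] [Fintype F], q₀ ≤ Fintype.card F → Good d e k δ F := by
  obtain ⟨δ1, hδ1, R0, hR0, h1⟩ := par d e k hde
  obtain ⟨δ2, hδ2, q₀, h2⟩ := bnd d e k R0 hde
  refine ⟨min δ1 δ2, lt_min hδ1 hδ2, q₀, ?_⟩
  intro F _ _ hq
  obtain ⟨p, hchar, r, hp, hcard⟩ := FiniteField.card' F
  have : Fact p.Prime := ⟨hp⟩
  by_cases hrR : (r : ℕ) ≤ R0
  · exact mon (h2 p r r.pos hrR (hcard ▸ hq) F hcard) (min_le_right _ _)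
  · refine mon (δ := δ1) ?_ (min_le_left _ _)
    intro f hf hD V _ G x y z hinj hV hG
    letI := ZMod.algebra F p
    obtain ⟨t, ht, h⟩ := h1 p r hp.two_le (by omega)
    obtain ⟨h3, h4⟩ := h (Fintype.card V) (by rw [← hcard]; exact hV)
    have hfr : Module.finrank (ZMod p) F = r := by
      have h5 := Module.card_eq_pow_finrank (K := ZMod p) (V := F)
      rw [hcard, ZMod.card] at h5
      exact (Nat.pow_right_injective hp.two_le h5).symm
    obtain ⟨I, hI, hc⟩ := cor (K := ZMod p) d e k t (hfr ▸ ht) f hf hD G x y z hinj hG (by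
      rw [ZMod.card, hcard]
      exact h3)
    rw [ZMod.card, hcard] at hc
    exact ⟨I, hI, h4 _ hc⟩
-- END fin

end Pool.Agent.C4h
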